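import Pool.Agent.MP_c69980_ag.H43.Spec8
import Pool.Agent.MP_c69980_ag.S73.Tank

/-!
The Iitaka foliation.
-/

set_option autoImplicit false

namespace Pool.Agent.MP_c69980_ag.H43

open H60 Finset IntermediateField Polynomial

variable {K : Type} [Field K] [Algebra ℂ K]

lemma iitChar (F : IntermediateField ℂ K) : CharZero F :=
  charZero_of_injective_algebraMap (algebraMap ℂ F).injective

lemma iitExt {F : IntermediateField ℂ K} {ι : Type} {f : ι → K} (hf : IsTranscendenceBasis F f)
    {D : Derivation ℂ K K} (h1 : ∀ x ∈ F, D x = 0) (h2 : ∀ i, D (f i) = 0) : D = 0 := by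
  have := iitChar F
  let D' : Derivation F K K := Derivation.mk'
    { toFun := D, map_add' := fun x y => map_add D x y
      map_smul' := fun c x => by
        show D (c * x) = c * D x
        simp [h1 _ c.2] } fun x y => D.leibniz x y
  have e : D' = 0 := der_ext hf h2
  exact Derivation.ext fun x => DFunLike.congr_fun e x

lemma iitEx {F : IntermediateField ℂ K} {ι : Type} {f : ι → K} (hf : IsTranscendenceBasis F f)
    (v : ι → K) : ∃ D : Derivation ℂ K K, (∀ x ∈ F, D x = 0) ∧ ∀ i, D (f i) = v i := by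
  have := iitChar F
  obtain ⟨D, hD⟩ := der_exists (M := K) hf v
  exact ⟨D.restrictScalars ℂ, fun x hx => D.map_algebraMap ⟨x, hx⟩, hD⟩

lemma iitSpan {s : ℕ} {f : Fin s → K} {d : Fin s → Derivation ℂ K K}
    (hd : (Matrix.of fun l l' => d l (f l')).det ≠ 0) (D : Derivation ℂ K K) :
    ∃ c : Fin s → K, ∀ i, (D - ∑ l, c l • d l) (f i) = 0 := by
  obtain ⟨c, hc⟩ := Matrix.vecMul_surjective_iff_isUnit.2
    ((Matrix.isUnit_iff_isUnit_det _).2 hd.isUnit) fun i => D (f i)
  refine ⟨c, fun i => ?_⟩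
  rw [Derivation.sub_apply, tankSum, ← congrFun hc i, sub_eq_zero]
  rfl

lemma iitPres {L F : IntermediateField ℂ K} (hF : ∀ x, x ∈ F ↔ IsAlgebraic L x)
    {D : Derivation ℂ K K} (hD : ∀ x ∈ L, D x ∈ L) : ∀ x ∈ F, D x ∈ F := by
  intro x hx
  have := iitChar L
  have l : ∀ c : L, (c : K) ∈ F := fun c => (hF _).2 (isAlgebraic_algebraMap c)
  have k : ∀ p : L[X], aeval x p ∈ F ∧ D (aeval x p) - aeval x (derivative p) * D x ∈ F := by
    intro p
    induction p using Polynomial.induction_on' with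
    | add p q hp hq =>
      refine ⟨by rw [map_add]; exact add_mem hp.1 hq.1, ?_⟩
      convert add_mem hp.2 hq.2 using 1
      simp only [map_add]
      ring
    | monomial n c =>
      refine ⟨by rw [aeval_monomial]; exact mul_mem (l c) (pow_mem hx n), ?_⟩
      convert mul_mem (pow_mem hx n) (l ⟨_, hD _ c.2⟩) using 1
      simp [derivative_monomial, Derivation.leibniz_pow]
      ring
  have n0 := (minpoly.irreducible ((hF x).1 hx).isIntegral).separable.aeval_derivative_ne_zero
    (minpoly.aeval L x)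
  have := neg_mem (k (minpoly L x)).2
  rw [minpoly.aeval, map_zero, zero_sub, neg_neg] at this
  rw [← mul_div_cancel_left₀ (D x) n0]
  exact div_mem this (k _).1

omit [Algebra ℂ K] in
lemma iitTb {k : Type} [Field k] [Algebra k K] (s : Set K)
    (h : Algebra.IsAlgebraic (Algebra.adjoin k s) K) {m : ℕ} (hm : Algebra.trdeg k K = m) :
    ∃ f : Fin m → K, (∀ i, f i ∈ s) ∧ IsTranscendenceBasis k f := by
  obtain ⟨T, h1, h2⟩ := exists_isTranscendenceBasis_subset (R := k) s
  obtain ⟨e⟩ := Cardinal.mk_eq_nat_iff.1 (h2.cardinalMk_eq_trdeg.trans hm)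
  exact ⟨_, fun i => h1 (e.symm i).2, h2.comp_equiv e.symm⟩

lemma iitF (L : IntermediateField ℂ K) : ∃ F : IntermediateField ℂ K,
    (∀ x, x ∈ F ↔ IsAlgebraic L x) ∧ ∀ x, x ∉ F → Transcendental F x :=
  ⟨(algebraicClosure L K).restrictScalars ℂ, fun _ => mem_algebraicClosure_iff,
    fun _ e => Transcendental.algebraicClosure (F := L) (mt mem_algebraicClosure_iff.2 e)⟩

lemma iitVal (A : Subalgebra ℂ K) (V : ValuationSubring K)
    (h : ∀ c ∈ A, c ∈ V ∧ (c ≠ 0 → 1 ≤ V.valuation c)) {x : K}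
    (hx : IsAlgebraic (adjoin ℂ (A : Set K)) x) : x ∈ V := by
  have iv : ∀ x ∈ adjoin ℂ (A : Set K), x ∈ V := fun x hx => by
    obtain ⟨b, hb, c, hc, rfl⟩ := mem_adjoin_iff_div.1 hx
    rw [Algebra.adjoin_eq] at hb hc
    rw [← V.valuation_le_one_iff, map_div₀]
    by_cases c0 : c = 0
    · simp [c0]
    exact div_le_one_of_le₀ (((V.valuation_le_one_iff _).2 (h b hb).1).trans ((h c hc).2 c0))
      zero_le
  obtain ⟨y, hy⟩ := (IsIntegrallyClosed.isIntegral_iff (R := V)).1 (hx.isIntegral.map_of_comp_eq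
    ((algebraMap (adjoin ℂ (A : Set K)) K).codRestrict V fun x => iv x x.2) (RingHom.id K) rfl)
  exact (show (y : K) = x from hy) ▸ y.2

theorem sIit (h : SLin) : SIit := by
  intro t a M n w Θ PP K _ _ U z u m J γ E G gk mp tk gd hG
  classical
  obtain ⟨β₀, hβ₀⟩ := mp.ch
  have on : OnG w Θ u := ⟨fun o => ⟨β₀ o, hβ₀ o⟩, mp.hu⟩
  let A : Subalgebra ℂ K :=
    { carrier := {x | ∀ V ∈ G, x ∈ V}
      mul_mem' := fun a b V hV => mul_mem (a V hV) (b V hV)
      add_mem' := fun a b V hV => add_mem (a V hV) (b V hV)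
      algebraMap_mem' := fun c V hV => (gd.dvr V hV).2 c }
  obtain ⟨F, F1, F2⟩ := iitF (adjoin ℂ (A : Set K))
  have AF : ∀ x ∈ A, x ∈ F := fun x hx =>
    (F1 x).2 (isAlgebraic_algebraMap (⟨x, subset_adjoin _ _ hx⟩ : adjoin ℂ (A : Set K)))
  have EF : ∀ j, ∀ x ∈ F, E j x ∈ F := fun j => iitPres F1 fun x hx => by
    induction hx using adjoin_induction with
    | mem x hx => exact subset_adjoin _ _ fun V hV => gd.der V hV j x (hx V hV)
    | algebraMap c => simp
    | add x y _ _ a b => rw [map_add]; exact add_mem a b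
    | inv x e a =>
      rw [Derivation.leibniz_inv]
      exact mul_mem (neg_mem (pow_mem (inv_mem e) 2)) a
    | mul x y e e' a b => rw [Derivation.leibniz]; exact add_mem (mul_mem e b) (mul_mem e' a)
  have al : Algebra.IsAlgebraic (Algebra.adjoin F (rat u)) K := ⟨fun x =>
    ((isAlgebraic_adjoin_iff_top.1 mp.hf).1 x).tower_top_of_subalgebra_le
      (B := (Algebra.adjoin F (rat u)).restrictScalars ℂ) (A := Algebra.adjoin ℂ (rat u))
      (Algebra.adjoin_le (Algebra.subset_adjoin (R := F)))⟩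
  obtain ⟨s, hs⟩ := Cardinal.lt_aleph0.1
    ((Algebra.IsAlgebraic.trdeg_le_cardinalMk F (rat u)).trans_lt (rat_fin u).lt_aleph0)
  obtain ⟨f, f1, hf⟩ := iitTb _ al hs
  obtain _ | r := s
  · obtain ⟨y, y1, y2⟩ := iitTb (A : Set K) (isAlgebraic_adjoin_iff_top.1 ⟨fun x => (F1 x).1
      (by_contra fun e => F2 x e ((hf.isEmpty_iff_isAlgebraic.1 inferInstance).1 x))⟩) tk.deg
    exact (hG (gd.big y y1 y2.1)).elim
  let cb := Fintype.linearCombination K E
  let vl := Fintype.linearCombination K γ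
  have inj : ∀ v, cb v = 0 → v = 0 := fun v hv =>
    funext (Fintype.linearIndependent_iff.1 tk.ind v hv)
  have act : ∀ v, Vel w PP (cb v) u (vl v) := fun v β hβ x => by
    simp only [cb, vl, Fintype.linearCombination_apply, tankSum, tankVfSum, tk.act β hβ]
  have ech : ∀ v k, vl v (J k) = v k := fun v k => by
    simp [vl, Fintype.linearCombination_apply, Finset.sum_apply, tk.ech]
  obtain ⟨y, -, hy⟩ := iitTb (k := ℂ) (Set.univ : Set K) ⟨fun x =>
    isAlgebraic_algebraMap (⟨x, Algebra.subset_adjoin trivial⟩ : Algebra.adjoin ℂ Set.univ)⟩ tk.deg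
  have : ∀ l, ∃ v, (∀ x ∈ F, cb v x = 0) ∧ ∀ i, cb v (f i) = if l = i then 1 else 0 := fun l => by
    obtain ⟨D, D1, D2⟩ := iitEx hf fun i => if l = i then 1 else 0
    obtain ⟨c, hc⟩ := iitSpan (det_ne hy tk.ind) D
    obtain rfl : D = cb c := sub_eq_zero.1 (der_ext hy hc)
    exact ⟨c, D1, D2⟩
  choose p p1 p2 using this
  have sm : ∀ (q : Fin (r + 1) → Fin m → K) (c : Fin (r + 1) → K) x,
      cb (∑ l, c l • q l) x = ∑ l, c l * cb (q l) x := fun q c x => by
    simp only [map_sum, map_smul, tankSum]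
  obtain ⟨J', B, -, b1⟩ := (h K ⊤).2 _ _ p (Fintype.linearIndependent_iff.2 fun c hc i => by
    simpa [hc, p2] using (sm p c (f i)).symm) fun _ _ => trivial
  obtain ⟨q, q1, q2⟩ : ∃ q : Fin (r + 1) → Fin m → K, (∀ l, ∀ x ∈ F, cb (q l) x = 0) ∧
      ∀ j i, q j (J' i) = if j = i then 1 else 0 :=
    ⟨fun j => ∑ l, B j l • p l, fun l x hx => by simp [tankSum, p1 _ x hx], fun j i =>
      (Finset.sum_apply _ _ _).trans (b1 j i)⟩
  have qF : ∀ j k, q j k ∈ F := fun j => (h K F.toSubfield).1 (Fin m) (Fin (r + 1) ⊕ F)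
    (Sum.elim (fun i k => if k = J' i then 1 else 0) fun x k => E k x)
    (Sum.elim (fun i => if j = i then 1 else 0) 0) (q j)
    (by
      rintro (i | x) k
      · simp only [Sum.elim_inl]; split_ifs; exacts [one_mem _, zero_mem _]
      · exact EF k x x.2)
    (by
      rintro (i | x)
      · simp only [Sum.elim_inl]; split_ifs; exacts [one_mem _, zero_mem _]
      · exact zero_mem _)
    (by
      rintro (i | x)
      · simp [q2]
      · exact (tankSum _ _ _).symm.trans (q1 j x x.2))
    fun v hv => by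
      have e : v = ∑ l, cb v (f l) • p l := sub_eq_zero.1 (inj _ (iitExt hf (fun x hx => by
        rw [map_sub, Derivation.sub_apply, sm]
        simp [p1 _ x hx, show cb v x = 0 from (tankSum _ _ _).trans (hv (.inr ⟨x, hx⟩))])
        fun i => by rw [map_sub, Derivation.sub_apply, sm]; simp [p2]))
      have e1 : Matrix.of B * Matrix.of (fun l i => p l (J' i)) = 1 := Matrix.ext b1
      have e2 : Matrix.vecMul (fun l => cb v (f l)) (Matrix.of fun l i => p l (J' i)) = 0 :=
        funext fun i => by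
          have := hv (.inl i)
          simp only [Sum.elim_inl, mul_ite, mul_one, mul_zero, sum_ite_eq', mem_univ, if_true]
            at this
          rw [e, Finset.sum_apply] at this
          exact this
      have e3 := congrArg (Matrix.vecMul · (Matrix.of B)) e2
      simp only [Matrix.vecMul_vecMul, mul_eq_one_comm.1 e1, Matrix.vecMul_one,
        Matrix.zero_vecMul] at e3
      rw [e]
      simp [congrFun e3]
  obtain ⟨lam, l1, l2⟩ := gk.rig K u F _ (fun l => vl (q l)) (fun l => cb (q l)) on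
    (fun l i => by
      simp only [vl, Fintype.linearCombination_apply, Finset.sum_apply]
      exact sum_mem fun j _ => mul_mem (qF l j) (AF _ fun V hV => gd.gam V hV j i))
    (Fintype.linearIndependent_iff.2 fun c hc i => by
      simpa [Finset.sum_apply, ech, q2] using congrFun hc (J (J' i)))
    q1 (fun l => act _) fun x _ hx => by
      have := hx.cardinalMk_le_trdeg
      rw [hs, Cardinal.mk_fin, Nat.cast_le] at this
      omega
  let v : Fin (r + 1) → Fin m → K := fun l j => algebraMap ℂ K (lam l (J j))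
  have key : ∀ l, (vl (v l) = fun i => algebraMap ℂ K (lam l i)) ∧ ∀ x ∈ F, cb (v l) x = 0 := by
    intro l
    obtain ⟨c, hc⟩ := (Submodule.mem_span_range_iff_exists_fun K).1 (l2 l)
    simp only [← map_smul, ← map_sum] at hc
    rw [show v l = ∑ j, c j • q j from funext fun j => by rw [← ech (∑ _, _) j, hc]]
    exact ⟨hc, fun x hx => by simp [tankSum, q1 _ x hx]⟩
  have vel : ∀ l, Vel w PP (cb (v l)) u fun i => algebraMap ℂ K (lam l i) := fun l =>
    (key l).1 ▸ act _
  have dt : (Matrix.of fun l l' => cb (v l) (f l')).det ≠ 0 := fun e => by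
    obtain ⟨c, c0, c1⟩ := Matrix.exists_vecMul_eq_zero_iff.2 e
    have := congrArg vl (inj (∑ l, c l • v l) (iitExt hf
      (fun x hx => by simp [tankSum, (key _).2 x hx]) fun i => (sm _ _ _).trans (congrFun c1 i)))
    simp only [map_sum, map_smul, (key _).1, map_zero] at this
    exact c0 (funext (Fintype.linearIndependent_iff.1
      ((linearIndependent_algebraMap_comp_iff (S := K)).2 l1) c this))
  refine ⟨F, r, lam, fun l => cb (v l), f, ⟨on, mp.hf, ⟨(rat_fin z).toFinset, by
    rw [Set.Finite.coe_toFinset]; exact mp.gen.2⟩, l1, vel, fun x => ⟨fun hx l => (key l).2 x hx,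
      fun hx => by_contra fun e => ?_⟩, fun l l' x => ?_, f1, hf, dt⟩, fun l x => ?_, AF,
    fun V hV => ?_⟩
  · obtain ⟨T, T1, T2⟩ := exists_isTranscendenceBasis_superset (R := F) (s := {x})
      (algebraicIndependent_unique_type_iff.2 (F2 x e))
    obtain ⟨D, D1, D2⟩ := iitEx T2 fun _ => 1
    obtain ⟨c, hc⟩ := iitSpan dt D
    have := DFunLike.congr_fun (iitExt hf (fun x hx => by
      simp [tankSum, D1 x hx, (key _).2 x hx]) hc) x
    simp [tankSum, hx, show D x = 1 from D2 ⟨x, T1 rfl⟩] at this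
  · obtain ⟨k, -, g⟩ := gk.ev.exists
    have := g.br K u ((cb (v l)).restrictScalars ℤ) ((cb (v l')).restrictScalars ℤ) _ _ on
      (fun c _ => (cb _).map_algebraMap c) (fun c _ => (cb _).map_algebraMap c) (vel l) (vel l')
      β₀ hβ₀
    refine sub_eq_zero.1 (DFunLike.congr_fun (iitExt hf (D := ⁅cb (v l), cb (v l')⁆)
      (fun x hx => ?_) fun i => tankKill hβ₀ (fun x => (this x).trans ?_) (tankK0 (f1 i))) x)
    · simp [Derivation.commutator_apply, (key _).2 x hx]
    · simp [vf]
  · simp only [cb, Fintype.linearCombination_apply, tankSum, Algebra.smul_def, v]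
  · exact or_iff_not_imp_right.2 fun e x hx => iitVal A V (fun c hc => ⟨hc V hV, fun c0 =>
      not_lt.1 fun e' => e ⟨c, c0, hc, e'⟩⟩) ((F1 x).1 hx)

end Pool.Agent.MP_c69980_ag.H43
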