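import Pool.Agent.MP_c69980_ag.H43.Spec7

/-!
Elements integral over the rings `LR` have few poles.
-/

set_option autoImplicit false

namespace Pool.Agent.MP_c69980_ag.H43

open MvPolynomial H60 Finset Filter

section One
variable {L : Type} [Field L] [Algebra ℂ L]

lemma o2f_one (h : FFd L) (P : Pl L) : lam P 1 = 0 := (h.lam_eq_zero P 1).2 (one_mem _)

lemma o2f_pow (h : FFd L) (P : Pl L) {z : L} (hz : lam P z ≠ 0) (n : ℕ) :
    lam P (z ^ n) = n * lam P z := by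
  have h0 : z ≠ 0 := fun e => hz (e ▸ lam_zero P)
  induction n with
  | zero => rw [pow_zero, o2f_one h, zero_mul]
  | succ n ih =>
    have h1 : 0 ≤ -P.ord (z ^ n) := by
      rcases n with _ | n
      · rw [pow_zero, ← map_one (algebraMap ℂ L), h.a.con, neg_zero]
      · have h2 := mul_ne_zero n.succ_ne_zero hz
        rw [← ih, lam] at h2
        omega
    rw [add_mul, one_mul, ← ih, pow_succ]
    simp only [lam, h.a.mul P _ _ (pow_ne_zero n h0) h0] at hz ⊢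
    omega

lemma o2f_sum (h : FFd L) (P : Pl L) {ι : Type} (s : Finset ι) (f : ι → L) {B : ℕ}
    (hf : ∀ i ∈ s, lam P (f i) ≤ B) : lam P (∑ i ∈ s, f i) ≤ B :=
  sum_induction f (fun x => lam P x ≤ B) (fun a b ha hb => (h.lam_add P a b).trans (max_le ha hb))
    (by rw [lam_zero]; exact Nat.zero_le _) hf

lemma o2f_root (h : FFd L) (P : Pl L) {z : L} {d : ℕ} {c : ℕ → L}
    (e : z ^ d + ∑ i ∈ range d, c i * z ^ i = 0) : lam P z ≤ ∑ i ∈ range d, lam P (c i) := by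
  by_contra hn
  rw [not_le] at hn
  have h0 : lam P z ≠ 0 := by omega
  rcases d with _ | d
  · simp at e
  have h1 := o2f_sum h P (range (d + 1)) (fun i => c i * z ^ i)
    (B := ∑ i ∈ range (d + 1), lam P (c i) + d * lam P z) fun i hi =>
      (h.lam_mul P _ _).trans (Nat.add_le_add
        (single_le_sum (f := fun i => lam P (c i)) (fun _ _ => Nat.zero_le _) hi)
        ((o2f_pow h P h0 i).trans_le (Nat.mul_le_mul_right _ (Nat.lt_succ_iff.1 (mem_range.1 hi)))))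
  rw [eq_neg_of_add_eq_zero_right e, h.lam_neg, o2f_pow h P h0, add_mul, one_mul] at h1
  omega

lemma o2f_log {D : Derivation ℂ L L} {S : Finset (Pl L)} {m : Pl L → ℤ} {χ : ℕ} (h : CD D S m χ)
    (P : Pl L) (z : L) : lam P (D z / z) ≤ χ := by
  by_cases h0 : z = 0
  · rw [h0, div_zero, lam_zero]
    exact Nat.zero_le _
  by_cases h1 : D z = 0
  · rw [h1, zero_div, lam_zero]
    exact Nat.zero_le _
  have h2 := h.le P
  rw [lam, div_eq_mul_inv, h.ff.a.mul P _ _ h1 (inv_ne_zero h0), h.ff.ord_inv]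
  by_cases h3 : P.ord z = 0
  · have h4 := (h.reg P z ((h.ff.a.mem P z h0).2 h3.ge)).resolve_left h1
    omega
  · have h4 := (h.ord P z h3).2
    omega

lemma o2f_chart {t M : ℕ} {w : Fin M → Option (Fin t)} {y : Fin M → L}
    (h : ∀ o, ∃ b, w b = o ∧ y b ≠ 0) (V : ValuationSubring L) :
    ∃ β, Ch w β y ∧ ∀ j, xc w β y j ∈ V := by
  classical
  have key : ∀ o, ∃ b, (w b = o ∧ y b ≠ 0) ∧
      ∀ c, w c = o → V.valuation (y c) ≤ V.valuation (y b) := fun o => by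
    obtain ⟨b₀, h1, h2⟩ := h o
    obtain ⟨b, h3, h4⟩ := exists_max_image (univ.filter fun b => w b = o)
      (fun b => V.valuation (y b)) ⟨b₀, mem_filter.2 ⟨mem_univ _, h1⟩⟩
    have h5 : ∀ c, w c = o → V.valuation (y c) ≤ V.valuation (y b) := fun c hc =>
      h4 c (mem_filter.2 ⟨mem_univ _, hc⟩)
    refine ⟨b, ⟨(mem_filter.1 h3).2, fun e => h2 ?_⟩, h5⟩
    simpa [e] using h5 b₀ h1
  choose β h1 h2 using key
  refine ⟨β, h1, fun j => ?_⟩
  rw [← V.valuation_le_one_iff, xc, map_div₀]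
  exact div_le_one_of_le₀ (h2 _ _ rfl) zero_le

end One

variable {L : ℕ → Type} [∀ n, Field (L n)] [∀ n, Algebra ℂ (L n)] {U : Ultrafilter ℕ} {τ : ℕ → ℕ}

open Classical in
lemma o2f_fin {ι : Type} (I : Finset ι) {T : ι → ∀ n, Set (Pl (L n))} {x : ι → ∀ n, L n}
    (h : ∀ i ∈ I, WS U τ (T i) (x i)) {T₀ : ∀ n, Set (Pl (L n))} {x₀ : ∀ n, L n}
    (hle : ∀ᶠ n in U, ∀ P ∈ T₀ n,
      lam P (x₀ n) ≤ ∑ i ∈ I, if P ∈ T i n then lam P (x i n) else 0) : WS U τ T₀ x₀ := fun N => by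
  filter_upwards [hle, (eventually_all_finset I).2 fun i hi => h i hi (N * #I)] with n h1 h2 s hs
  refine (Nat.mul_le_mul_left N (sum_le_sum fun P hP => h1 P (hs hP))).trans ?_
  rcases I.eq_empty_or_nonempty with rfl | hI
  · simp
  refine Nat.le_of_mul_le_mul_left ?_ hI.card_pos
  rw [sum_comm, ← mul_assoc, mul_comm _ N, mul_sum]
  refine (sum_le_card_nsmul _ _ _ fun i hi => ?_).trans_eq (smul_eq_mul _ _)
  rw [← sum_filter]
  exact h2 i hi _ fun P hP => (mem_filter.1 hP).2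

lemma o2f_zero {T : ∀ n, Set (Pl (L n))} {x : ∀ n, L n}
    (h : ∀ᶠ n in U, ∀ P ∈ T n, lam P (x n) = 0) : WS U τ T x :=
  o2f_fin (∅ : Finset Unit) (T := fun _ => T) (x := fun _ => x) (by simp)
    (h.mono fun _ h1 P hP => (h1 P hP).trans_le (Nat.zero_le _))

lemma o2f_two {T : ∀ n, Set (Pl (L n))} {x a b : ∀ n, L n} (ha : WS U τ T a) (hb : WS U τ T b)
    (h : ∀ n P, lam P (x n) ≤ lam P (a n) + lam P (b n)) : WS U τ T x :=
  o2f_fin (univ : Finset Bool) (T := fun _ => T) (x := fun i => cond i a b)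
    (fun i _ => by cases i; exacts [hb, ha])
    (Eventually.of_forall fun n P hP => by simpa [hP] using h n P)

lemma o2f_lo {T : ∀ n, Set (Pl (L n))} {x : ∀ n, L n} {f : ℕ → ℕ} (hf : Lo U τ f)
    (h : ∀ n, ∀ s : Finset (Pl (L n)), ↑s ⊆ T n → ∑ P ∈ s, lam P (x n) ≤ f n) : WS U τ T x :=
  fun N => (hf N).mono fun n h1 s hs => (Nat.mul_le_mul_left N (h n s hs)).trans h1

/-- Sequences with few poles in `T`. -/
def o2fW (h : ∀ n, FFd (L n)) (U : Ultrafilter ℕ) (τ : ℕ → ℕ) (T : ∀ n, Set (Pl (L n))) :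
    Subring (∀ n, L n) where
  carrier := {x | WS U τ T x}
  zero_mem' := o2f_zero (Eventually.of_forall fun _ P _ => lam_zero P)
  one_mem' := o2f_zero (Eventually.of_forall fun n P _ => o2f_one (h n) P)
  add_mem' ha hb := o2f_two ha hb fun n P => ((h n).lam_add P _ _).trans
    (max_le (Nat.le_add_right _ _) (Nat.le_add_left _ _))
  mul_mem' ha hb := o2f_two ha hb fun n P => (h n).lam_mul P _ _
  neg_mem' ha := o2f_two ha ha fun n P => ((h n).lam_neg P _).trans_le (Nat.le_add_right _ _)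

lemma o2f_int (h : ∀ n, FFd (L n)) {φ : (∀ n, L n) →+* ℂ}
    (hφ : ∀ x, φ x = 0 → ∀ᶠ n in U, x n = 0) {T : ∀ n, Set (Pl (L n))} {R : Subring ℂ}
    (hR : R ≤ (o2fW h U τ T).map φ) {x : ∀ n, L n} (hx : IsIntegral R (φ x)) : WS U τ T x := by
  obtain ⟨p, hp, e⟩ := hx
  have h1 : ∀ i, ∃ c, WS U τ T c ∧ φ c = p.coeff i := fun i => hR (p.coeff i).2
  choose c c1 c2 using h1
  have h2 := hφ (x ^ p.natDegree + ∑ i ∈ range p.natDegree, c i * x ^ i) (by
    rw [hp.as_sum, Polynomial.eval₂_add, Polynomial.eval₂_X_pow, Polynomial.eval₂_finsetSum] at e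
    rw [← e, map_add, map_pow, map_sum]
    refine congrArg _ (sum_congr rfl fun i _ => ?_)
    rw [map_mul, map_pow, c2, Polynomial.eval₂_mul, Polynomial.eval₂_C, Polynomial.eval₂_X_pow]
    rfl)
  refine o2f_fin (range p.natDegree) (T := fun _ => T) (fun i _ => c1 i)
    (h2.mono fun n h3 P hP => ?_)
  simp only [if_pos hP]
  refine o2f_root (h n) P (c := fun i => c i n) ?_
  simpa using h3

lemma o2f_inv {φ : (∀ n, L n) →+* ℂ} (hφ : ∀ x, φ x = 0 ↔ ∀ᶠ n in U, x n = 0) (x : ∀ n, L n) :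
    φ x⁻¹ = (φ x)⁻¹ := by
  by_cases h : φ x = 0
  · rw [h, inv_zero, hφ]
    exact ((hφ x).1 h).mono fun n e => by rw [Pi.inv_apply, e, inv_zero]
  · refine eq_inv_of_mul_eq_one_right ?_
    rw [← map_mul, ← sub_eq_zero, ← map_one φ, ← map_sub, hφ]
    exact (Ultrafilter.eventually_not.2 fun e => h ((hφ x).2 e)).mono fun n e => by
      simp [mul_inv_cancel₀ e]

theorem sO2F : SO2F := by
  classical
  intro t a M w Θ PP k L _ _ U D S m χ y g φ D' p₀ l F sq hE x hx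
  have hf : ∀ n, FFd (L n) := fun n => (sq.cd n).ff
  have hdiv : ∀ u v : ∀ n, L n, φ (fun n => u n / v n) = φ u / φ v := fun u v => by
    rw [div_eq_mul_inv, ← o2f_inv hE.ker, ← map_mul]
    exact congrArg φ (funext fun n => div_eq_mul_inv _ _)
  have hrat : ∀ c b, φ (fun n => y n c / y n b) = Θ p₀ c / Θ p₀ b := fun c b => by
    rw [hdiv (fun n => y n c) fun n => y n b, hE.th, hE.th, mul_div_mul_left _ _ hE.l0]
  have hFL : FL F (Θ p₀) ≤ { φ.range with
      inv_mem' := fun _ ⟨z, e⟩ => ⟨z⁻¹, e ▸ o2f_inv hE.ker z⟩ } :=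
    FL_le (fun c hc => (hE.sm c hc).imp fun _ h => h.1) fun _ ⟨c, b, e⟩ => ⟨_, e ▸ hrat c b⟩
  let T : Cht M t → ∀ n, Set (Pl (L n)) := fun β n => {P | P ∈ S n ∧ ∀ j, xc w β (y n) j ∈ P.V}
  have h1 : ∀ β ∈ univ.filter fun β => Ch w β (Θ p₀), WS U (fun n => ht (y n)) (T β) x := by
    intro β hβ
    refine o2f_int hf (fun z => (hE.ker z).1) (Subring.closure_le.2 ?_) (hx β (mem_filter.1 hβ).2)
    rintro _ ((hc | ⟨j, rfl⟩) | ⟨ψ, hψ, rfl⟩)
    · obtain ⟨z, rfl, hz⟩ := hE.sm _ hc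
      exact ⟨z, o2f_lo hz fun n s _ => (hf n).sum_le_deg _ s, rfl⟩
    · exact ⟨fun n => xc w β (y n) j, o2f_zero (Eventually.of_forall fun n P hP =>
        ((hf n).lam_eq_zero P _).2 (hP.2 j)), hrat _ _⟩
    · obtain ⟨z, rfl⟩ := hFL hψ
      refine ⟨fun n => D n (z n) / z n, o2f_lo sq.lo fun n s hs => ?_, ?_⟩
      · refine (sum_le_card_nsmul _ _ _ fun P _ => o2f_log (sq.cd n) P _).trans ?_
        rw [smul_eq_mul, pow_two]
        exact (Nat.mul_le_mul_right _ ((card_le_card fun P hP => (hs hP).1).trans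
          (sq.cd n).card)).trans (Nat.le_succ _)
      · rw [hdiv (fun n => D n (z n)) z, hE.der]
  have h2 : ∀ᶠ n in U, ∀ c, Θ p₀ c = 0 → y n c = 0 := eventually_all.2 fun c => by
    by_cases h : Θ p₀ c = 0
    · exact ((hE.ker _).1 ((hE.th c).trans (by rw [h, mul_zero]))).mono fun _ e _ => e
    · exact Eventually.of_forall fun _ e => absurd e h
  refine o2f_fin _ (x := fun _ => x) h1 (h2.mono fun n hn P hP => ?_)
  obtain ⟨β, b1, b2⟩ := o2f_chart (sq.on n).blk P.V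
  refine le_trans ?_ (single_le_sum (a := β) (fun _ _ => Nat.zero_le _)
    (mem_filter.2 ⟨mem_univ β, fun o => ⟨(b1 o).1, fun e => (b1 o).2 (hn _ e)⟩⟩))
  rw [if_pos (show P ∈ T β n from ⟨hP, b2⟩)]

end Pool.Agent.MP_c69980_ag.H43
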